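import Pool.Agent.Lib.RN57.Basic

set_option autoImplicit false

/-!
# Coarse solvent maps and renormings

`MP_81fb21_an`, Q1.  Let `Y` be a Banach space such that `c₀(Y)` coarsely embeds into `Y`, and let
`f : (X, N₁) → Y` be coarse and solvent.  After replacing `f` by a constant near the origin (this does
not matter for coarse properties) the maps `x ↦ f (λ x) - f 0`, `0 < λ ≤ 1`, vanish on balls of
radius `1 / λ` and have a common modulus.  For each `n` finitely many of them, with arbitrarily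
small `λ`, detect all pairs of points at `N₂`-distance in `[R, R + n]` for a suitable `R`; all of them
together form a coarse solvent map `(X, N₂) → c₀(Y)`.
-/

namespace Pool.Agent.Results.MP_81fb21_an.RenormingCoarse

open RN57 Filter Topology
open scoped ZeroAtInfty

universe u v

variable {X : Type u} {Y : Type v} [NormedAddCommGroup X] [NormedSpace ℝ X]
  [NormedAddCommGroup Y] [NormedSpace ℝ Y]

/-- `c₀(Y)` (the null sequences in `Y` with the sup norm) coarsely embeds into `Y`. -/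
def AbsorbsC0 (Y : Type v) [NormedAddCommGroup Y] [NormedSpace ℝ Y] : Prop :=
  ∃ Φ : C₀(ℕ, Y) → Y, (∀ t : ℝ, ∃ K : ℝ, ∀ a b, ‖a - b‖ ≤ t → ‖Φ a - Φ b‖ ≤ K) ∧
    ∀ K : ℝ, ∃ R : ℝ, ∀ a b, R ≤ ‖a - b‖ → K ≤ ‖Φ a - Φ b‖

omit [NormedSpace ℝ Y] in
/-- The cut-off of a coarse solvent map near the origin. -/
lemma cutoff {N : Seminorm ℝ X} {f : X → Y} (hf : Coarse N f) (hs : Solvent N f) :
    ∃ F : X → Y, Coarse N F ∧ Solvent N F ∧ ∀ x, N x < 1 → F x = F 0 := by
  classical
  let P : X → X := fun x => if N x < 1 then 0 else x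
  have hP : ∀ x y, N (P x - P y) ≤ N (x - y) + 1 ∧ (N (x - y) ≤ N (P x - P y) + 2) := by
    intro x y
    have h1 : ∀ x, N (P x - x) ≤ 1 := by
      intro x
      simp only [P]
      split_ifs with h
      · rw [zero_sub, map_neg_eq_map]; exact h.le
      · simp
    have hx := h1 x
    have hy := h1 y
    constructor
    · by_cases hx1 : N x < 1
      · by_cases hy1 : N y < 1
        · have : P x - P y = 0 := by simp [P, hx1, hy1]
          rw [this, map_zero]
          linarith [apply_nonneg N (x - y)]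
        · have h2 : P x - P y = (x - y) - x := by simp [P, hx1, hy1]
          rw [h2]
          exact (map_sub_le_add N _ _).trans (by linarith)
      · by_cases hy1 : N y < 1
        · have h2 : P x - P y = (x - y) + y := by simp [P, hx1, hy1]
          rw [h2]
          exact (map_add_le_add N _ _).trans (by linarith)
        · have h2 : P x - P y = x - y := by simp [P, hx1, hy1]
          rw [h2]; linarith
    · have h2 : x - y = (P x - P y) - (P x - x) + (P y - y) := by abel
      calc N (x - y) = N ((P x - P y) - (P x - x) + (P y - y)) := by rw [← h2]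
        _ ≤ N ((P x - P y) - (P x - x)) + N (P y - y) := map_add_le_add N _ _
        _ ≤ N (P x - P y) + N (P x - x) + N (P y - y) := by
          linarith [map_sub_le_add N (P x - P y) (P x - x)]
        _ ≤ N (P x - P y) + 2 := by linarith
  refine ⟨fun x => f (P x), ?_, ?_, ?_⟩
  · intro t
    obtain ⟨K, hK⟩ := hf (t + 1)
    exact ⟨K, fun x y hxy => hK _ _ (by linarith [(hP x y).1])⟩
  · intro n
    obtain ⟨R, hR, h⟩ := hs (n + 3)
    refine ⟨R + 2, by linarith, fun x y h1 h2 => ?_⟩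
    have h3 := h (P x) (P y) (by linarith [(hP x y).2])
      (by push_cast; linarith [(hP x y).1])
    have h4 : (n : ℝ) ≤ ((n + 3 : ℕ) : ℝ) := by push_cast; linarith
    linarith
  · intro x hx
    simp [P, hx]

omit [NormedSpace ℝ Y] in
/-- The coarse solvent map `(X, N₂) → c₀(Y)`. -/
theorem to_c0 (N₁ N₂ : Seminorm ℝ X) (h1 : IsEquivNorm N₁) (h2 : IsEquivNorm N₂)
    {f : X → Y} (hf : Coarse N₁ f) (hs : Solvent N₁ f) :
    ∃ g : X → C₀(ℕ, Y), Coarse N₂ g ∧ Solvent N₂ g := by
  classical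
  obtain ⟨F, hF, hS, hF0⟩ := cutoff hf hs
  obtain ⟨α, β, hα, hβ, hcomp⟩ := equiv_compare h1 h2
  choose R hR hRS using fun n : ℕ => hS (n + 1)
  set θ : ℕ → ℝ := fun n => (R n + (n + 1 : ℕ)) / R n with hθ
  have hθ1 : ∀ n, 1 < θ n := by
    intro n
    have : (0 : ℝ) < ((n + 1 : ℕ) : ℝ) := by positivity
    rw [hθ]
    exact (one_lt_div (hR n)).2 (by linarith)
  have hθR : ∀ n, R n * θ n = R n + (n + 1 : ℕ) := by
    intro n
    have := (hR n).ne'
    simp only [hθ]
    field_simp
  choose k hk using fun n : ℕ => pow_unbounded_of_one_lt (2 * β / α) (hθ1 n)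
  set r : ℕ → ℝ := fun n => max (n + 1) ((n + 1) * R n / α) with hr
  have hr0 : ∀ n, 0 < r n := fun n => lt_of_lt_of_le (by positivity) (le_max_left _ _)
  set lam : ℕ → ℕ → ℝ := fun n i => R n / (α * r n * θ n ^ i) with hlam
  have hθp : ∀ n i, 0 < θ n ^ i := fun n i => pow_pos (by linarith [hθ1 n]) _
  have hlam0 : ∀ n i, 0 < lam n i := by
    intro n i
    have := hR n; have := hr0 n; have := hθp n i
    simp only [hlam]; positivity
  have hlam1 : ∀ n i, lam n i ≤ 1 / (n + 1) := by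
    intro n i
    have h3 := hR n
    have h4 := hr0 n
    have h5 := hθp n i
    have h6 : 1 ≤ θ n ^ i := one_le_pow₀ (hθ1 n).le
    simp only [hlam]
    rw [div_le_div_iff₀ (by positivity) (by positivity), one_mul]
    have h7 : (n + 1) * R n / α ≤ r n := le_max_right _ _
    rw [div_le_iff₀ hα] at h7
    nlinarith [mul_pos hα h4]
  let H : ℕ → X → Y := fun j x =>
    if (Nat.unpair j).2 ≤ k (Nat.unpair j).1 then
      F (lam (Nat.unpair j).1 (Nat.unpair j).2 • x) - F 0 else 0
  have hfin : ∀ x, {j | H j x ≠ 0}.Finite := by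
    intro x
    obtain ⟨M, hM⟩ := exists_nat_ge (N₁ x)
    refine ((Finset.range (M + 1)).biUnion fun n =>
      (Finset.range (k n + 1)).image fun i => Nat.pair n i).finite_toSet.subset ?_
    intro j hj
    rw [Set.mem_ofPred_eq] at hj
    simp only [H] at hj
    split_ifs at hj with hjk
    · have h3 : 1 ≤ N₁ (lam (Nat.unpair j).1 (Nat.unpair j).2 • x) := by
        by_contra h4
        exact hj (by rw [hF0 _ (not_le.1 h4), sub_self])
      rw [map_smul_eq_mul, Real.norm_of_nonneg (hlam0 _ _).le] at h3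
      have h4 : (1 : ℝ) ≤ 1 / ((Nat.unpair j).1 + 1) * N₁ x :=
        h3.trans (mul_le_mul_of_nonneg_right (hlam1 _ _) (apply_nonneg N₁ x))
      have h5 : ((Nat.unpair j).1 : ℝ) + 1 ≤ N₁ x := by
        rw [one_div, inv_mul_eq_div, one_le_div (by positivity)] at h4
        exact h4
      have h6 : (Nat.unpair j).1 < M + 1 := by
        have : ((Nat.unpair j).1 : ℝ) < (M : ℝ) + 1 := by linarith
        exact_mod_cast this
      simp only [Finset.coe_biUnion, Finset.coe_range, Set.mem_Iio, Finset.coe_image,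
        Set.mem_iUnion, Set.mem_image]
      exact ⟨(Nat.unpair j).1, h6, (Nat.unpair j).2, by omega, Nat.pair_unpair j⟩
    · exact absurd rfl hj
  let g : X → C₀(ℕ, Y) := fun x =>
    { toFun := fun j => H j x
      continuous_toFun := continuous_of_discreteTopology
      zero_at_infty' := by
        rw [Filter.cocompact_eq_cofinite]
        refine tendsto_const_nhds.congr' ?_
        rw [Filter.EventuallyEq, Filter.eventually_cofinite]
        exact (hfin x).subset fun j hj => fun h0 => hj h0.symm }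
  have hg : ∀ x j, g x j = H j x := fun _ _ => rfl
  have hnorm_le : ∀ (a b : C₀(ℕ, Y)) (K : ℝ), 0 ≤ K → (∀ j, ‖a j - b j‖ ≤ K) → ‖a - b‖ ≤ K := by
    intro a b K hK h
    rw [← dist_eq_norm, ← ZeroAtInftyContinuousMap.dist_toBCF_eq_dist,
      BoundedContinuousFunction.dist_le hK]
    intro j
    rw [dist_eq_norm]
    exact h j
  have hle_norm : ∀ (a b : C₀(ℕ, Y)) j, ‖a j - b j‖ ≤ ‖a - b‖ := by
    intro a b j
    rw [← dist_eq_norm, ← dist_eq_norm, ← ZeroAtInftyContinuousMap.dist_toBCF_eq_dist]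
    exact BoundedContinuousFunction.dist_coe_le_dist (f := a.toBCF) (g := b.toBCF) j
  refine ⟨g, ?_, ?_⟩
  · intro t
    obtain ⟨K, hK⟩ := hF (β * t)
    refine ⟨max K 0, fun x y hxy => hnorm_le _ _ _ (le_max_right _ _) fun j => ?_⟩
    rw [hg, hg]
    simp only [H]
    split_ifs
    · rw [sub_sub_sub_cancel_right]
      refine (hK _ _ ?_).trans (le_max_left _ _)
      rw [← smul_sub, map_smul_eq_mul, Real.norm_of_nonneg (hlam0 _ _).le]
      have h3 : lam (Nat.unpair j).1 (Nat.unpair j).2 ≤ 1 := by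
        refine (hlam1 _ _).trans ?_
        rw [div_le_one (by positivity)]
        linarith [(Nat.cast_nonneg (Nat.unpair j).1 : (0 : ℝ) ≤ (Nat.unpair j).1)]
      calc lam (Nat.unpair j).1 (Nat.unpair j).2 * N₁ (x - y) ≤ 1 * N₁ (x - y) :=
            mul_le_mul_of_nonneg_right h3 (apply_nonneg N₁ _)
        _ = N₁ (x - y) := one_mul _
        _ ≤ β * N₂ (x - y) := (hcomp _).2
        _ ≤ β * t := mul_le_mul_of_nonneg_left hxy hβ.le
    · simp
  · intro n
    refine ⟨r n, hr0 n, fun x y hx1 hx2 => ?_⟩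
    have hrn : (n : ℝ) ≤ r n := le_trans (by linarith) (le_max_left ((n : ℝ) + 1) _)
    -- the position of `N₁ (x - y)`
    have h3 : α * r n ≤ N₁ (x - y) := (mul_le_mul_of_nonneg_left hx1 hα.le).trans (hcomp _).1
    have h4 : N₁ (x - y) ≤ 2 * β * r n := by
      calc N₁ (x - y) ≤ β * N₂ (x - y) := (hcomp _).2
        _ ≤ β * (r n + n) := mul_le_mul_of_nonneg_left hx2 hβ.le
        _ ≤ β * (r n + r n) := by gcongr
        _ = 2 * β * r n := by ring
    have hαr : 0 < α * r n := mul_pos hα (hr0 n)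
    set s : ℝ := N₁ (x - y) / (α * r n) with hs'
    have hs1 : 1 ≤ s := (one_le_div hαr).2 h3
    have hs2 : s ≤ 2 * β / α := by
      rw [hs', div_le_div_iff₀ hαr hα]
      nlinarith
    obtain ⟨i, hi1, hi2⟩ := exists_nat_pow_near hs1 (hθ1 n)
    have hik : i ≤ k n := by
      by_contra hik
      have : θ n ^ k n ≤ θ n ^ i := pow_le_pow_right₀ (hθ1 n).le (by omega)
      linarith [hk n]
    have hN1 : N₁ (x - y) = s * (α * r n) := (div_mul_cancel₀ _ hαr.ne').symm
    have h5 : N₁ (lam n i • x - lam n i • y) = R n * (s / θ n ^ i) := by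
      rw [← smul_sub, map_smul_eq_mul, Real.norm_of_nonneg (hlam0 _ _).le, hN1]
      have := (hθp n i).ne'
      have := (hr0 n).ne'
      simp only [hlam]
      field_simp
    have h6 := hRS n (lam n i • x) (lam n i • y)
      (by
        rw [h5]
        have : 1 ≤ s / θ n ^ i := (one_le_div (hθp n i)).2 hi1
        nlinarith [hR n])
      (by
        rw [h5, ← hθR]
        apply mul_le_mul_of_nonneg_left _ (hR n).le
        rw [div_le_iff₀ (hθp n i), ← pow_succ']
        exact hi2.le)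
    have h7 := hle_norm (g x) (g y) (Nat.pair n i)
    rw [hg, hg] at h7
    simp only [H, Nat.unpair_pair, if_pos hik] at h7
    rw [sub_sub_sub_cancel_right] at h7
    have h8 : (n : ℝ) ≤ ((n + 1 : ℕ) : ℝ) := by push_cast; linarith
    linarith

theorem part_c0 (hY : AbsorbsC0 Y) (N₁ N₂ : Seminorm ℝ X) (h1 : IsEquivNorm N₁)
    (h2 : IsEquivNorm N₂) {f : X → Y} (hf : Coarse N₁ f) (hs : Solvent N₁ f) :
    ∃ g : X → Y, Coarse N₂ g ∧ Solvent N₂ g := by
  obtain ⟨g, hg1, hg2⟩ := to_c0 N₁ N₂ h1 h2 hf hs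
  obtain ⟨Φ, hΦ1, hΦ2⟩ := hY
  refine ⟨fun x => Φ (g x), fun t => ?_, fun m => ?_⟩
  · obtain ⟨K, hK⟩ := hg1 t
    obtain ⟨K', hK'⟩ := hΦ1 K
    exact ⟨K', fun x y hxy => hK' _ _ (hK x y hxy)⟩
  · obtain ⟨R, hR⟩ := hΦ2 (m + 1)
    obtain ⟨n₀, hn₀⟩ := exists_nat_ge R
    set n := max n₀ m with hn
    obtain ⟨r, hr, h⟩ := hg2 n
    refine ⟨r, hr, fun x y hx1 hx2 => ?_⟩
    have h3 : (m : ℝ) ≤ (n : ℝ) := by exact_mod_cast le_max_right _ _
    have h4 : (n₀ : ℝ) ≤ (n : ℝ) := by exact_mod_cast le_max_left _ _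
    have h5 := h x y hx1 (by linarith)
    have h6 := hR (g x) (g y) (by linarith)
    linarith

lemma coarse_solvent_of_bounds {N : Seminorm ℝ X}
    (T : X →ₗ[ℝ] Y) (hT : LinEmb N T) : Coarse N T ∧ Solvent N T := by
  obtain ⟨p, q, hp, hq, h⟩ := hT
  refine ⟨fun t => ⟨q * t, fun x y hxy => ?_⟩, fun n => ⟨(n + 1) / p, by positivity,
    fun x y hx _ => ?_⟩⟩
  · rw [← map_sub]
    exact (h _).2.trans (mul_le_mul_of_nonneg_left hxy hq.le)
  · rw [← map_sub]
    have h1 : (n : ℝ) + 1 ≤ p * N (x - y) := by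
      calc (n : ℝ) + 1 = p * ((n + 1) / p) := by field_simp
        _ ≤ p * N (x - y) := mul_le_mul_of_nonneg_left hx hp.le
    linarith [(h (x - y)).1]

/-- **Main result.**  Let `X` and `Y` be real normed (for instance Banach) spaces, `N₁` and `N₂` two
equivalent norms of `X`.  Suppose that `c₀(Y)` coarsely embeds into `Y`, or `dim Y < ∞`, or
`dim X < ∞`.  If there is a coarse solvent map `(X, N₁) → Y`, then there is a coarse solvent map
`(X, N₂) → Y`.  Moreover, for all `X` and `Y`, a coarse solvent map `(X, N₁) → Y` yields a coarse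
solvent map `(X, N₂) → c₀(Y)`. -/
theorem result (X : Type u) (Y : Type v) [NormedAddCommGroup X] [NormedSpace ℝ X]
    [NormedAddCommGroup Y] [NormedSpace ℝ Y] (N₁ N₂ : Seminorm ℝ X) (h1 : IsEquivNorm N₁)
    (h2 : IsEquivNorm N₂) (hf : ∃ f : X → Y, Coarse N₁ f ∧ Solvent N₁ f) :
    ((AbsorbsC0 Y ∨ FiniteDimensional ℝ Y ∨ FiniteDimensional ℝ X) →
      ∃ g : X → Y, Coarse N₂ g ∧ Solvent N₂ g) ∧
    ∃ g : X → C₀(ℕ, Y), Coarse N₂ g ∧ Solvent N₂ g := by
  obtain ⟨f, hf1, hf2⟩ := hf
  refine ⟨?_, to_c0 N₁ N₂ h1 h2 hf1 hf2⟩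
  have fin : FiniteDimensional ℝ Y → ∃ g : X → Y, Coarse N₂ g ∧ Solvent N₂ g := by
    intro hY
    obtain ⟨hX, T, hT⟩ := exists_linEmb_of_rank_le (rank_le_of_coarse h1 hf1 hf2)
    exact ⟨T, coarse_solvent_of_bounds T (linEmb_of_injective h2 T hT)⟩
  rintro (h | h | h)
  · exact part_c0 h N₁ N₂ h1 h2 hf1 hf2
  · exact fin h
  · by_cases hY : FiniteDimensional ℝ Y
    · exact fin hY
    · obtain ⟨T, hT⟩ := exists_linEmb_of_infinite (X := X) hY
      exact ⟨T, coarse_solvent_of_bounds T (linEmb_of_injective h2 T hT)⟩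

end Pool.Agent.Results.MP_81fb21_an.RenormingCoarse
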