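import Pool.Agent.Lib.RN57.Basic
import Pool.Agent.Lib.RL45.Mean
import Pool.Agent.Lib.RL45.Repr

set_option autoImplicit false

/-!
# Coarse solvent maps into `L_p` and renormings

`MP_81fb21_an`, Q1, for the targets `L_p`, `1 ≤ p < ∞`, and separable `X`.

Let `f : (X, N₁) → L_p(μ)` be coarse and solvent and let `e` be a dense sequence of `X`.  The kernel
`‖f (s x + z) - f (s y + z)‖ ^ p` is averaged over `z` in larger and larger boxes (Følner sets) and
over `s ∈ [1, 3]`.  The limit kernel is again the `p`-th power of the distance for a map of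
`{e j}` into some `L_p`, by the theorem of Riesz, Markov and Kakutani on a compact cube.  After the
average over `z` the kernel depends on `x - y` only, up to the invariance of the mean, and by the
triangle inequality `n < ‖f (z + s' v) - f (z + s v)‖ ≤ ‖f (z + s' v) - f z‖ + ‖f (z + s v) - f z‖`
whenever `(s' - s) N₁ v ∈ [R, R + n]`; hence the average over `s` is at least `(n / 2) ^ p / 4` for
all `v` with `N₁ v ≥ R`.
-/

namespace Pool.Agent.Results.MP_81fb21_an.RenormingCoarseLp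

open RN57 RL45 MeasureTheory Filter Topology
open scoped ENNReal unitInterval

lemma mean_le {ι : Type*} {M : (ι → ℝ) → ℝ} (hM : IsMean M) {φ : ι → ℝ} {C : ℝ}
    (hφ : ∀ i, |φ i| ≤ C) : M φ ≤ C := by
  by_cases hι : Nonempty ι
  · obtain ⟨i₀⟩ := hι
    have hC : 0 ≤ C := (abs_nonneg _).trans (hφ i₀)
    have h1 := hM.smul (fun _ => (1 : ℝ)) 1 C (fun _ => by simp)
    have h2 := hM.smul φ C (-1) hφ
    have h3 := hM.add (fun _ => C * 1) (fun i => (-1) * φ i) C
      (fun _ => by rw [mul_one, abs_of_nonneg hC]) (fun i => by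
        rw [abs_mul, abs_neg, abs_one, one_mul]; exact hφ i)
    have h4 := hM.nonneg (fun i => C * 1 + (-1) * φ i) (2 * C) (fun i => by
      have := abs_le.1 (hφ i)
      rw [abs_le]; constructor <;> linarith) (fun i => by
      have := abs_le.1 (hφ i)
      linarith)
    rw [hM.one] at h1
    linarith
  · exfalso
    have h0 : ∀ i : ι, False := fun i => hι ⟨i⟩
    have h1 := hM.smul (fun _ => (1 : ℝ)) 1 0 (fun _ => by simp)
    have h2 : (fun _ : ι => (0 : ℝ) * 1) = fun _ => 1 := funext fun i => (h0 i).elim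
    rw [h2, hM.one] at h1
    norm_num at h1

/-- **Theorem.**  Let `X` be separable, `N₁`, `N₂` equivalent norms on `X`, `1 ≤ p < ∞`, and let
`f : (X, N₁) → L_p(μ)` be coarse and solvent.  Then there is a coarse embedding (in particular a
coarse solvent map) `(X, N₂) → L_p([0, 1])`. -/
theorem result {X Ω : Type*} [NormedAddCommGroup X] [NormedSpace ℝ X]
    [TopologicalSpace.SeparableSpace X] [MeasurableSpace Ω] (μ : Measure Ω) (p : ℝ≥0∞)
    [Fact (1 ≤ p)] (hp : p ≠ ∞) (N₁ N₂ : Seminorm ℝ X) (h₁ : IsEquivNorm N₁)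
    (h₂ : IsEquivNorm N₂) (f : X → Lp ℝ p μ) (hf : Coarse N₁ f) (hs : Solvent N₁ f) :
    ∃ g : X → Lp ℝ p (volume : Measure I), Coarse N₂ g ∧
      (∀ K : ℝ, ∃ R : ℝ, ∀ x y, R ≤ N₂ (x - y) → K ≤ ‖g x - g y‖) ∧ Solvent N₂ g := by
  classical
  obtain ⟨α, β, hα, hβ, hαβ⟩ := equiv_compare h₁ h₂
  have hq0 := toReal_pos' hp
  have hq1 : 1 ≤ p.toReal := by
    have := ENNReal.toReal_mono hp (Fact.out : 1 ≤ p)
    simpa using this
  set q := p.toReal with hq
  choose K hK using hf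
  let e : ℕ → X := TopologicalSpace.denseSeq X
  obtain ⟨M, hM, hshift, hpair⟩ := exists_mean e
  have hs3 : ∀ (s : Set.Icc (1 : ℝ) 3) (x : X), N₁ ((s : ℝ) • x) ≤ 3 * N₁ x := by
    intro s x
    rw [map_smul_eq_mul, Real.norm_of_nonneg (by linarith [s.2.1])]
    exact mul_le_mul_of_nonneg_right s.2.2 (apply_nonneg N₁ x)
  obtain ⟨g₀, hg₀⟩ := exists_repr hp
    (fun (i : Set.Icc (1 : ℝ) 3 × X) (j : ℕ) => f ((i.1 : ℝ) • e j + i.2) - f i.2)
    (fun j => K (3 * N₁ (e j))) (fun i j => hK _ _ _ (by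
      rw [add_sub_cancel_right]; exact hs3 _ _)) M hM
  simp only [sub_sub_sub_cancel_right] at hg₀
  -- upper bound
  have hup : ∀ (t : ℝ) (j k : ℕ), N₁ (e j - e k) ≤ t → ‖g₀ j - g₀ k‖ ≤ |K (3 * t)| := by
    intro t j k hjk
    refine (Real.rpow_le_rpow_iff (norm_nonneg _) (abs_nonneg _) hq0).1 ?_
    rw [hg₀]
    refine mean_le hM fun i => ?_
    rw [abs_of_nonneg (by positivity)]
    refine Real.rpow_le_rpow (norm_nonneg _) ?_ hq0.le
    refine (hK (3 * t) _ _ ?_).trans (le_abs_self _)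
    have h1 : ((i.1 : ℝ) • e j + i.2) - ((i.1 : ℝ) • e k + i.2) = (i.1 : ℝ) • (e j - e k) := by
      rw [smul_sub]; abel
    rw [h1]
    exact (hs3 _ _).trans (by linarith)
  -- lower bound
  have hlow : ∀ n : ℕ, 1 ≤ n → ∃ R : ℝ, ∀ j k : ℕ, R ≤ N₁ (e j - e k) →
      (n : ℝ) / 8 ≤ ‖g₀ j - g₀ k‖ := by
    intro n hn
    obtain ⟨R, hR, hRn⟩ := hs n
    refine ⟨R, fun j k hjk => ?_⟩
    have hn0 : (0 : ℝ) < n := by exact_mod_cast hn
    set v := e j - e k with hv
    have hv0 : 0 < N₁ v := lt_of_lt_of_le hR hjk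
    let φ : Set.Icc (1 : ℝ) 3 × X → ℝ := fun i => ‖f (i.2 + (i.1 : ℝ) • v) - f i.2‖ ^ q
    have hφ0 : ∀ i, 0 ≤ φ i := fun i => by positivity
    have hφC : ∀ i, |φ i| ≤ |K (3 * N₁ v)| ^ q := by
      intro i
      rw [abs_of_nonneg (hφ0 i)]
      refine Real.rpow_le_rpow (norm_nonneg _) ?_ hq0.le
      refine (hK (3 * N₁ v) _ _ ?_).trans (le_abs_self _)
      rw [add_sub_cancel_left]
      exact hs3 _ _
    have h1 : ‖g₀ j - g₀ k‖ ^ q = M φ := by
      rw [hg₀, ← hshift φ _ hφC k]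
      refine congrArg M (funext fun i => ?_)
      simp only [φ]
      have h2 : i.2 + (i.1 : ℝ) • e k + (i.1 : ℝ) • v = (i.1 : ℝ) • e j + i.2 := by
        rw [hv, smul_sub]; abel
      rw [h2, add_comm i.2 ((i.1 : ℝ) • e k)]
    have h3 : ((n : ℝ) / 2) ^ q / 4 ≤ M φ := by
      refine hpair φ _ (((n : ℝ) / 2) ^ q) (R / N₁ v) (n / N₁ v) hφC hφ0 (by positivity)
        ((div_le_one hv0).2 hjk) (by positivity) (by positivity) ?_
      intro z s s' ha hb
      rw [div_le_iff₀ hv0] at ha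
      rw [← add_div, le_div_iff₀ hv0] at hb
      have hss : 0 < (s' : ℝ) - s := by
        by_contra hneg
        push Not at hneg
        have : ((s' : ℝ) - s) * N₁ v ≤ 0 := mul_nonpos_of_nonpos_of_nonneg hneg hv0.le
        linarith
      have h4 : (z + (s' : ℝ) • v) - (z + (s : ℝ) • v) = ((s' : ℝ) - s) • v := by
        rw [sub_smul]; abel
      have h5 : N₁ ((z + (s' : ℝ) • v) - (z + (s : ℝ) • v)) = ((s' : ℝ) - s) * N₁ v := by
        rw [h4, map_smul_eq_mul, Real.norm_of_nonneg hss.le]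
      have h6 := hRn (z + (s' : ℝ) • v) (z + (s : ℝ) • v) (by rw [h5]; exact ha)
        (by rw [h5]; exact hb)
      have h7 : ‖f (z + (s' : ℝ) • v) - f (z + (s : ℝ) • v)‖ ≤
          ‖f (z + (s' : ℝ) • v) - f z‖ + ‖f (z + (s : ℝ) • v) - f z‖ := by
        have h8 : f (z + (s' : ℝ) • v) - f (z + (s : ℝ) • v) =
            (f (z + (s' : ℝ) • v) - f z) - (f (z + (s : ℝ) • v) - f z) := by abel
        rw [h8]; exact norm_sub_le _ _
      change ((n : ℝ) / 2) ^ q ≤ ‖f (z + (s : ℝ) • v) - f z‖ ^ q +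
        ‖f (z + (s' : ℝ) • v) - f z‖ ^ q
      have hA : 0 ≤ ‖f (z + (s : ℝ) • v) - f z‖ ^ q := by positivity
      have hB : 0 ≤ ‖f (z + (s' : ℝ) • v) - f z‖ ^ q := by positivity
      by_cases h9 : (n : ℝ) / 2 ≤ ‖f (z + (s : ℝ) • v) - f z‖
      · have := Real.rpow_le_rpow (by positivity) h9 hq0.le
        linarith
      · have h10 : (n : ℝ) / 2 ≤ ‖f (z + (s' : ℝ) • v) - f z‖ := by
          push Not at h9; linarith
        have := Real.rpow_le_rpow (by positivity) h10 hq0.le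
        linarith
    refine (Real.rpow_le_rpow_iff (by positivity) (norm_nonneg _) hq0).1 ?_
    rw [h1]
    refine le_trans ?_ h3
    have h11 : (n : ℝ) / 8 = (n / 2) * (1 / 4) := by ring
    rw [h11, Real.mul_rpow (by positivity) (by norm_num), div_eq_mul_one_div (((n : ℝ) / 2) ^ q) 4]
    refine mul_le_mul_of_nonneg_left ?_ (by positivity)
    calc ((1 : ℝ) / 4) ^ q ≤ (1 / 4) ^ (1 : ℝ) :=
          Real.rpow_le_rpow_of_exponent_ge (by norm_num) (by norm_num) hq1
      _ = 1 / 4 := Real.rpow_one _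
  -- nearest points
  have hnear : ∀ x : X, ∃ j : ℕ, N₁ (x - e j) ≤ 1 := by
    intro x
    obtain ⟨c, C, hc, hC, hN⟩ := h₁
    obtain ⟨j, hj⟩ := (TopologicalSpace.denseRange_denseSeq X).exists_dist_lt x
      (show (0 : ℝ) < 1 / C by positivity)
    refine ⟨j, (hN _).2.trans ?_⟩
    rw [dist_eq_norm] at hj
    calc C * ‖x - e j‖ ≤ C * (1 / C) := mul_le_mul_of_nonneg_left hj.le hC.le
      _ = 1 := by field_simp
  choose ν hν using hnear
  have hcmp : ∀ x y : X, N₁ (e (ν x) - e (ν y)) ≤ N₁ (x - y) + 2 ∧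
      N₁ (x - y) ≤ N₁ (e (ν x) - e (ν y)) + 2 := by
    intro x y
    have hx := hν x
    have hy := hν y
    constructor
    · have h1 : e (ν x) - e (ν y) = ((x - y) - (x - e (ν x))) + (y - e (ν y)) := by abel
      rw [h1]
      calc _ ≤ N₁ ((x - y) - (x - e (ν x))) + N₁ (y - e (ν y)) := map_add_le_add N₁ _ _
        _ ≤ N₁ (x - y) + N₁ (x - e (ν x)) + N₁ (y - e (ν y)) := by
          linarith [map_sub_le_add N₁ (x - y) (x - e (ν x))]
        _ ≤ _ := by linarith
    · have h1 : x - y = ((e (ν x) - e (ν y)) + (x - e (ν x))) - (y - e (ν y)) := by abel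
      rw [h1]
      calc _ ≤ N₁ ((e (ν x) - e (ν y)) + (x - e (ν x))) + N₁ (y - e (ν y)) :=
            map_sub_le_add N₁ _ _
        _ ≤ N₁ (e (ν x) - e (ν y)) + N₁ (x - e (ν x)) + N₁ (y - e (ν y)) := by
          linarith [map_add_le_add N₁ (e (ν x) - e (ν y)) (x - e (ν x))]
        _ ≤ _ := by linarith
  have hbig : ∀ K : ℝ, ∃ R : ℝ, ∀ x y, R ≤ N₂ (x - y) → K ≤ ‖g₀ (ν x) - g₀ (ν y)‖ := by
    intro K'
    obtain ⟨n, hn⟩ := exists_nat_ge (8 * K')
    obtain ⟨R, hR⟩ := hlow (n + 1) (by omega)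
    refine ⟨(R + 2) / α, fun x y hxy => ?_⟩
    rw [div_le_iff₀ hα] at hxy
    have h1 := hR (ν x) (ν y) (by linarith [(hcmp x y).2, (hαβ (x - y)).1])
    push_cast at h1
    linarith
  refine ⟨fun x => g₀ (ν x), ?_, hbig, ?_⟩
  · intro t
    refine ⟨|K (3 * (β * t + 2))|, fun x y hxy => hup _ _ _ ?_⟩
    have h1 := (hαβ (x - y)).2
    have h2 : β * N₂ (x - y) ≤ β * t := mul_le_mul_of_nonneg_left hxy hβ.le
    linarith [(hcmp x y).1]
  · intro n
    obtain ⟨R, hR⟩ := hbig ((n : ℝ) + 1)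
    refine ⟨max R 1, lt_of_lt_of_le one_pos (le_max_right _ _), fun x y h1 _ => ?_⟩
    have := hR x y ((le_max_left _ _).trans h1)
    linarith

end Pool.Agent.Results.MP_81fb21_an.RenormingCoarseLp
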