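import Pool.Agent.Lib.RN57.Basic

set_option autoImplicit false

/-!
# Uniformly continuous almost uncollapsed maps and renormings

`MP_81fb21_an`, Q2.  Let `Y` be a Banach space that absorbs its square: some uniformly continuous map
`φ : Y × Y → Y` sends points at distance `≥ t` to points at distance `≥ ρ > 0` (for instance, `Y × Y`
is isomorphic to a subspace of `Y`, as for `ℓ_p`, `L_p`, `c_0`, `C(K)` for infinite metrizable `K`,
or it embeds uniformly, or coarsely by a uniformly continuous map).  If `f : (X, N₁) → Y` is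
uniformly continuous and separates points at distance exactly `t`, it separates points at distance
in `[t, θ t]` for some `θ > 1`; combining `f` with a dilate of itself by `φ` enlarges the window
`[t, θ ^ k t]` to `[t, θ ^ (k + 1) t]`, and a large window contains all `N₁`-distances of the points at
`N₂`-distance in `[a, b]`.
-/

namespace Pool.Agent.Results.MP_81fb21_an.RenormingSquares

open RN57

universe u v

variable {X Y : Type*} [NormedAddCommGroup X] [NormedSpace ℝ X]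
  [NormedAddCommGroup Y] [NormedSpace ℝ Y]

/-- `Y` absorbs its square: there is a uniformly continuous map `φ : Y × Y → Y` such that for some
`t, ρ > 0` points at distance at least `t` have images at distance at least `ρ`. -/
def AbsorbsSquare (Y : Type*) [NormedAddCommGroup Y] [NormedSpace ℝ Y] : Prop :=
  ∃ φ : Y × Y → Y, (∀ ε > 0, ∃ δ > 0, ∀ a b, ‖a - b‖ ≤ δ → ‖φ a - φ b‖ ≤ ε) ∧
    ∃ t > 0, ∃ ρ > 0, ∀ a b, t ≤ ‖a - b‖ → ρ ≤ ‖φ a - φ b‖

/-- `f` separates the pairs of points at distance in `[a, b]`. -/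
def Window (N : Seminorm ℝ X) (f : X → Y) (a b : ℝ) : Prop :=
  ∃ ρ > 0, ∀ x y, a ≤ N (x - y) → N (x - y) ≤ b → ρ ≤ ‖f x - f y‖

omit [NormedSpace ℝ Y] in
lemma unifCont_dilate {N : Seminorm ℝ X} {f : X → Y} (hf : UnifCont N f) {r : ℝ} (hr : 0 < r) :
    UnifCont N (fun x => f (r • x)) := by
  intro ε hε
  obtain ⟨δ, hδ, h⟩ := hf ε hε
  refine ⟨δ / r, div_pos hδ hr, fun x y hxy => h _ _ ?_⟩
  rw [← smul_sub, map_smul_eq_mul, Real.norm_of_nonneg hr.le]
  calc r * N (x - y) ≤ r * (δ / r) := mul_le_mul_of_nonneg_left hxy hr.le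
    _ = δ := by field_simp

omit [NormedSpace ℝ Y] in
lemma window_one {N : Seminorm ℝ X} {f : X → Y} (hf : UnifCont N f) (hu : AlmostUncollapsed N f) :
    ∃ t > 0, ∃ θ > 1, Window N f t (θ * t) := by
  obtain ⟨t, ht, ρ, hρ, h⟩ := hu
  obtain ⟨δ, hδ, hd⟩ := hf (ρ / 2) (by positivity)
  refine ⟨t, ht, 1 + δ / t, by have := div_pos hδ ht; linarith, ρ / 2, by positivity, ?_⟩
  intro x y h1 h2
  have hN : 0 < N (x - y) := lt_of_lt_of_le ht h1
  set s : ℝ := t / N (x - y) with hs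
  have hs0 : 0 < s := div_pos ht hN
  have hs1 : s ≤ 1 := (div_le_one hN).2 h1
  set z : X := x - s • (x - y) with hz
  have h3 : N (x - z) = t := by
    have : x - z = s • (x - y) := by rw [hz]; abel
    rw [this, map_smul_eq_mul, Real.norm_of_nonneg hs0.le, hs]
    field_simp
  have h4 : N (z - y) ≤ δ := by
    have : z - y = (1 - s) • (x - y) := by rw [hz, sub_smul, one_smul]; abel
    rw [this, map_smul_eq_mul, Real.norm_of_nonneg (by linarith), hs]
    have h5 : (1 - t / N (x - y)) * N (x - y) = N (x - y) - t := by field_simp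
    rw [h5]
    have h6 : (1 + δ / t) * t = t + δ := by field_simp
    linarith
  have h5 := h x z h3
  have h6 := hd z y h4
  have h7 : ‖f x - f z‖ ≤ ‖f x - f y‖ + ‖f z - f y‖ := by
    have : f x - f z = (f x - f y) - (f z - f y) := by abel
    rw [this]; exact norm_sub_le _ _
  linarith

lemma window_pow (hY : AbsorbsSquare Y) {N : Seminorm ℝ X} {f : X → Y} (hf : UnifCont N f)
    {t θ : ℝ} (ht : 0 < t) (hθ : 1 < θ) (hw : Window N f t (θ * t)) (k : ℕ) :
    ∃ g : X → Y, UnifCont N g ∧ Window N g t (θ ^ (k + 1) * t) := by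
  induction k with
  | zero => exact ⟨f, hf, by simpa using hw⟩
  | succ k ih =>
    obtain ⟨g, hg, ρ₁, hρ₁, hgw⟩ := ih
    obtain ⟨ρ₀, hρ₀, hfw⟩ := hw
    obtain ⟨φ, hφ, T, hT, ρ, hρ, hφT⟩ := hY
    have hθk : 0 < θ ^ (k + 1) := pow_pos (by linarith) _
    set r : ℝ := (θ ^ (k + 1))⁻¹ with hr
    have hr0 : 0 < r := inv_pos.2 hθk
    set s : ℝ := T / min ρ₀ ρ₁ with hs
    have hmin : 0 < min ρ₀ ρ₁ := lt_min hρ₀ hρ₁
    have hs0 : 0 < s := div_pos hT hmin
    refine ⟨fun x => φ (s • g x, s • f (r • x)), ?_, ρ, hρ, ?_⟩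
    · intro ε hε
      obtain ⟨δ, hδ, h1⟩ := hφ ε hε
      obtain ⟨δ₁, hδ₁, h2⟩ := hg (δ / s) (div_pos hδ hs0)
      obtain ⟨δ₂, hδ₂, h3⟩ := unifCont_dilate hf hr0 (δ / s) (div_pos hδ hs0)
      refine ⟨min δ₁ δ₂, lt_min hδ₁ hδ₂, fun x y hxy => h1 _ _ ?_⟩
      rw [Prod.mk_sub_mk, Prod.norm_mk, ← smul_sub, ← smul_sub, norm_smul, norm_smul,
        Real.norm_of_nonneg hs0.le]
      have h4 := h2 x y (hxy.trans (min_le_left _ _))
      have h5 := h3 x y (hxy.trans (min_le_right _ _))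
      have h6 : s * (δ / s) = δ := by field_simp
      apply max_le
      · calc s * ‖g x - g y‖ ≤ s * (δ / s) := mul_le_mul_of_nonneg_left h4 hs0.le
          _ = δ := h6
      · calc s * ‖f (r • x) - f (r • y)‖ ≤ s * (δ / s) := mul_le_mul_of_nonneg_left h5 hs0.le
          _ = δ := h6
    · intro x y hx1 hx2
      apply hφT
      rw [Prod.mk_sub_mk, Prod.norm_mk, ← smul_sub, ← smul_sub, norm_smul, norm_smul,
        Real.norm_of_nonneg hs0.le]
      have h6 : T ≤ s * ρ₀ ∧ T ≤ s * ρ₁ := by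
        constructor
        · calc T = s * min ρ₀ ρ₁ := by rw [hs]; field_simp
            _ ≤ s * ρ₀ := mul_le_mul_of_nonneg_left (min_le_left _ _) hs0.le
        · calc T = s * min ρ₀ ρ₁ := by rw [hs]; field_simp
            _ ≤ s * ρ₁ := mul_le_mul_of_nonneg_left (min_le_right _ _) hs0.le
      rcases le_or_gt (N (x - y)) (θ ^ (k + 1) * t) with h7 | h7
      · have h8 := hgw x y hx1 h7
        exact le_max_of_le_left (h6.2.trans (mul_le_mul_of_nonneg_left h8 hs0.le))
      · have h8 : ρ₀ ≤ ‖f (r • x) - f (r • y)‖ := by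
          apply hfw
          · rw [← smul_sub, map_smul_eq_mul, Real.norm_of_nonneg hr0.le]
            calc t = r * (θ ^ (k + 1) * t) := by rw [hr]; field_simp
              _ ≤ r * N (x - y) := mul_le_mul_of_nonneg_left h7.le hr0.le
          · rw [← smul_sub, map_smul_eq_mul, Real.norm_of_nonneg hr0.le]
            calc r * N (x - y) ≤ r * (θ ^ (k + 1 + 1) * t) :=
                  mul_le_mul_of_nonneg_left hx2 hr0.le
              _ = θ * t := by rw [hr, pow_succ θ (k + 1)]; field_simp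
        exact le_max_of_le_right (h6.1.trans (mul_le_mul_of_nonneg_left h8 hs0.le))

theorem part_one (hY : AbsorbsSquare Y) (N₁ N₂ : Seminorm ℝ X) (h1 : IsEquivNorm N₁)
    (h2 : IsEquivNorm N₂) (h : ∃ f : X → Y, UnifCont N₁ f ∧ AlmostUncollapsed N₁ f)
    (a b : ℝ) (ha : 0 < a) :
    ∃ g : X → Y, UnifCont N₂ g ∧ Window N₂ g a b := by
  obtain ⟨f, hf, hu⟩ := h
  obtain ⟨α, β, hα, hβ, hcomp⟩ := equiv_compare h1 h2
  obtain ⟨t, ht, θ, hθ, hw⟩ := window_one hf hu
  have hlow : ∀ x, α * N₂ x ≤ N₁ x := fun x => (hcomp x).1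
  have hup : ∀ x, N₁ x ≤ β * N₂ x := fun x => (hcomp x).2
  set a' : ℝ := α * a with ha'
  have ha'0 : 0 < a' := by positivity
  set b' : ℝ := β * b with hb'
  obtain ⟨k, hk⟩ : ∃ k : ℕ, b' / a' < θ ^ k := pow_unbounded_of_one_lt _ hθ
  obtain ⟨g, hg, ρ, hρ, hgw⟩ := window_pow hY hf ht hθ hw k
  set r : ℝ := t / a' with hr
  have hr0 : 0 < r := div_pos ht ha'0
  have hgr := unifCont_dilate hg hr0
  refine ⟨fun x => g (r • x), ?_, ρ, hρ, ?_⟩
  · intro ε hε
    obtain ⟨δ, hδ, hd⟩ := hgr ε hε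
    refine ⟨δ / β, by positivity, fun x y hxy => hd x y ?_⟩
    calc N₁ (x - y) ≤ β * N₂ (x - y) := hup _
      _ ≤ β * (δ / β) := mul_le_mul_of_nonneg_left hxy (by positivity)
      _ = δ := by field_simp
  · intro x y hx1 hx2
    apply hgw
    · rw [← smul_sub, map_smul_eq_mul, Real.norm_of_nonneg hr0.le]
      calc t = r * a' := by rw [hr]; field_simp
        _ ≤ r * N₁ (x - y) := by
          apply mul_le_mul_of_nonneg_left _ hr0.le
          calc a' ≤ α * N₂ (x - y) := mul_le_mul_of_nonneg_left hx1 (by positivity)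
            _ ≤ N₁ (x - y) := hlow _
    · rw [← smul_sub, map_smul_eq_mul, Real.norm_of_nonneg hr0.le]
      have h3 : N₁ (x - y) ≤ b' :=
        (hup _).trans (mul_le_mul_of_nonneg_left hx2 (by positivity))
      have h4 : b' ≤ θ ^ (k + 1) * a' := by
        have h5 : b' < θ ^ k * a' := by rwa [div_lt_iff₀ ha'0] at hk
        have h6 : θ ^ k ≤ θ ^ (k + 1) := pow_le_pow_right₀ hθ.le (by omega)
        nlinarith
      calc r * N₁ (x - y) ≤ r * (θ ^ (k + 1) * a') :=
            mul_le_mul_of_nonneg_left (h3.trans h4) hr0.le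
        _ = θ ^ (k + 1) * t := by rw [hr]; field_simp

/-- A space whose square is isomorphic to a subspace absorbs its square. -/
lemma absorbsSquare_of_linear (T : (Y × Y) →L[ℝ] Y) (c : ℝ) (hc : 0 < c)
    (hT : ∀ v, c * ‖v‖ ≤ ‖T v‖) : AbsorbsSquare Y := by
  refine ⟨T, ?_, 1, one_pos, c, hc, ?_⟩
  · intro ε hε
    refine ⟨ε / (‖T‖ + 1), by positivity, fun a b hab => ?_⟩
    rw [← map_sub]
    calc ‖T (a - b)‖ ≤ ‖T‖ * ‖a - b‖ := T.le_opNorm _
      _ ≤ (‖T‖ + 1) * (ε / (‖T‖ + 1)) := by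
        apply mul_le_mul (by linarith) hab (norm_nonneg _) (by positivity)
      _ = ε := by field_simp
  · intro a b hab
    rw [← map_sub]
    calc c = c * 1 := (mul_one c).symm
      _ ≤ c * ‖a - b‖ := mul_le_mul_of_nonneg_left hab hc.le
      _ ≤ ‖T (a - b)‖ := hT _

/-- A linear embedding separates points at distance at least `a > 0`. -/
lemma of_linEmb {N : Seminorm ℝ X} (T : X →ₗ[ℝ] Y) (hT : LinEmb N T) (a b : ℝ) (ha : 0 < a) :
    UnifCont N T ∧ Window N T a b := by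
  obtain ⟨p, q, hp, hq, h⟩ := hT
  refine ⟨fun ε hε => ⟨ε / q, by positivity, fun x y hxy => ?_⟩, p * a, by positivity,
    fun x y hx _ => ?_⟩
  · rw [← map_sub]
    calc ‖T (x - y)‖ ≤ q * N (x - y) := (h _).2
      _ ≤ q * (ε / q) := mul_le_mul_of_nonneg_left hxy hq.le
      _ = ε := by field_simp
  · rw [← map_sub]
    exact (mul_le_mul_of_nonneg_left hx hp.le).trans (h _).1

theorem part_all (h : AbsorbsSquare Y ∨ FiniteDimensional ℝ Y ∨ FiniteDimensional ℝ X)
    (N₁ N₂ : Seminorm ℝ X) (h1 : IsEquivNorm N₁) (h2 : IsEquivNorm N₂)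
    (hf : ∃ f : X → Y, UnifCont N₁ f ∧ AlmostUncollapsed N₁ f) (a b : ℝ) (ha : 0 < a) :
    ∃ g : X → Y, UnifCont N₂ g ∧ Window N₂ g a b := by
  have fin : FiniteDimensional ℝ Y → ∃ g : X → Y, UnifCont N₂ g ∧ Window N₂ g a b := by
    intro hY
    obtain ⟨f, hf1, hf2⟩ := hf
    obtain ⟨hX, T, hT⟩ := exists_linEmb_of_rank_le (rank_le_of_unif h1 hf1 hf2)
    exact ⟨T, of_linEmb T (linEmb_of_injective h2 T hT) a b ha⟩
  rcases h with h | h | h
  · exact part_one h N₁ N₂ h1 h2 hf a b ha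
  · exact fin h
  · by_cases hY : FiniteDimensional ℝ Y
    · exact fin hY
    · obtain ⟨T, hT⟩ := exists_linEmb_of_infinite (X := X) hY
      exact ⟨T, of_linEmb T (linEmb_of_injective h2 T hT) a b ha⟩

/-- **Main result.**  Let `X` and `Y` be real normed (for instance Banach) spaces, `N₁` and `N₂` two
equivalent norms of `X`.  Suppose that `Y` absorbs its square, or `dim Y < ∞`, or `dim X < ∞`.  If
there is a uniformly continuous almost uncollapsed map `(X, N₁) → Y`, then there is one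
`(X, N₂) → Y`; moreover for all `0 < a` and `b` there is a uniformly continuous map
`g : (X, N₂) → Y` such that the images of points at `N₂`-distance in `[a, b]` are at distance at
least some `ρ > 0`.  (2) `Y` absorbs its square if `Y × Y` is isomorphic to a subspace of `Y`. -/
theorem result :
    (∀ (X : Type u) (Y : Type v) [NormedAddCommGroup X] [NormedSpace ℝ X] [NormedAddCommGroup Y]
      [NormedSpace ℝ Y], (AbsorbsSquare Y ∨ FiniteDimensional ℝ Y ∨ FiniteDimensional ℝ X) →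
      ∀ N₁ N₂ : Seminorm ℝ X, IsEquivNorm N₁ → IsEquivNorm N₂ →
      (∃ f : X → Y, UnifCont N₁ f ∧ AlmostUncollapsed N₁ f) →
      (∃ g : X → Y, UnifCont N₂ g ∧ AlmostUncollapsed N₂ g) ∧
      ∀ a b : ℝ, 0 < a → ∃ g : X → Y, UnifCont N₂ g ∧
        ∃ ρ > 0, ∀ x y, a ≤ N₂ (x - y) → N₂ (x - y) ≤ b → ρ ≤ ‖g x - g y‖) ∧
    ∀ (Y : Type v) [NormedAddCommGroup Y] [NormedSpace ℝ Y],
      (∃ (T : (Y × Y) →L[ℝ] Y) (c : ℝ), 0 < c ∧ ∀ v, c * ‖v‖ ≤ ‖T v‖) → AbsorbsSquare Y := by
  refine ⟨?_, ?_⟩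
  · intro X Y _ _ _ _ hY N₁ N₂ h1 h2 hf
    refine ⟨?_, fun a b ha => part_all hY N₁ N₂ h1 h2 hf a b ha⟩
    obtain ⟨g, hg, ρ, hρ, hw⟩ := part_all hY N₁ N₂ h1 h2 hf 1 1 one_pos
    exact ⟨g, hg, 1, one_pos, ρ, hρ, fun x y hxy => hw x y hxy.ge hxy.le⟩
  · rintro Y _ _ ⟨T, c, hc, hT⟩
    exact absorbsSquare_of_linear T c hc hT

end Pool.Agent.Results.MP_81fb21_an.RenormingSquares
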